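import Pool.Agent.H66.FlagCount
import Pool.Agent.H66.FlagJoin

set_option autoImplicit false

namespace Pool.Agent.Results.MP_fc91b2_co.ConnectedGamma

open Pool.Agent.H66.Flag Finset Polynomial

theorem one_two_sq : (1 + 2 * X : ℤ[X]) ^ 2 = 1 + 4 * (X * (1 + X)) := by ring

/-- the `γ`-vector of `J_r(r a)`. -/
theorem gamma_J (r a : ℕ) (hr : 1 ≤ r) (ha : 3 ≤ a) :
    IsGammaVector r (J r (r * a)) (fun i => (r.choose i : ℤ) * ((a : ℤ) - 4) ^ i) := by
  apply gamma_of_F r _ _ _ (J_coeff r a hr ha)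
  · have h1 : (X * (1 + X) : ℤ[X]).natDegree ≤ 2 := by compute_degree
    have h2 : ((a : ℤ[X]) * (X * (1 + X))).natDegree ≤ 2 := by
      refine (Polynomial.natDegree_mul_le).trans ?_
      rw [Polynomial.natDegree_natCast]; omega
    have h3 : (1 + (a : ℤ[X]) * (X * (1 + X))).natDegree ≤ 2 := by
      refine (Polynomial.natDegree_add_le _ _).trans ?_
      rw [Polynomial.natDegree_one]; omega
    calc _ ≤ r * (1 + (a : ℤ[X]) * (X * (1 + X))).natDegree := Polynomial.natDegree_pow_le
      _ ≤ r * 2 := Nat.mul_le_mul_left _ h3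
      _ = 2 * r := by ring
  · have h1 : (1 + (a : ℤ[X]) * (X * (1 + X))) =
        (((a : ℤ[X]) - 4) * (X * (1 + X))) + (1 + 2 * X) ^ 2 := by rw [one_two_sq]; ring
    rw [h1, add_pow]
    apply Finset.sum_congr rfl
    intro i hi
    rw [mem_range] at hi
    rw [mul_pow, ← pow_mul, Nat.mul_sub]
    simp only [map_mul, map_pow, map_sub, map_natCast, map_ofNat]
    ring

theorem main (r : ℕ) (hr : 4 ≤ r) (t : ℕ) (ht : 8 ≤ t) :
    ∃ M : SCx (Fin (r * (2 * t))),
      (∀ v, ({v} : Finset (Fin (r * (2 * t)))) ∈ M.faces) ∧ IsFlag M ∧ IsConn M ∧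
      (∀ (R : Type) [CommRing R], IsHomologyManifold R (2 * r) M) ∧
      IsGammaVector r M (fun i => (-4) ^ i * (r.choose i : ℤ) +
        if i = 1 then 2 * ((r * t : ℕ) : ℤ) else 0) := by
  classical
  set N := r * t with hN
  set m := 2 * r - 1 with hm
  have hm1 : 3 ≤ m := by omega
  have hmN : 4 * m < N := by
    have : r * 8 ≤ r * t := Nat.mul_le_mul_left _ ht
    omega
  have hNe : NeZero N := ⟨by omega⟩
  have hcard : Fintype.card (ZMod N × Bool) = r * (2 * t) := by
    rw [Fintype.card_prod, ZMod.card, Fintype.card_bool, hN]; ring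
  let e : Fin (r * (2 * t)) ≃ ZMod N × Bool := (Fintype.equivFinOfCardEq hcard).symm
  refine ⟨cliqueCx ((MG m N).comap e), ?_, cliqueCx_flag, ?_, ?_, ?_⟩
  · intro v x hx y hy hxy
    rw [mem_singleton] at hx hy
    exact absurd (hx.trans hy.symm) hxy
  · intro x y
    have h1 := ring_conn (m := m) (by omega) hmN (e x) (e y)
    have h2 : ∀ z : ZMod N × Bool, Relation.ReflTransGen (MG m N).Adj (e x) z →
        Relation.ReflTransGen
          (fun u v => ({u, v} : Finset (Fin (r * (2 * t)))) ∈ (cliqueCx ((MG m N).comap e)).faces)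
          x (e.symm z) := by
      intro z hz
      induction hz with
      | refl => rw [Equiv.symm_apply_apply]
      | tail _ hbc ih =>
        refine ih.tail ?_
        intro u hu v hv huv
        rename_i b c _
        simp only [mem_insert, mem_singleton] at hu hv
        rw [SimpleGraph.comap_adj]
        rcases hu with rfl | rfl
        · rcases hv with rfl | rfl
          · exact absurd rfl huv
          · rw [Equiv.apply_symm_apply, Equiv.apply_symm_apply]; exact hbc
        · rcases hv with rfl | rfl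
          · rw [Equiv.apply_symm_apply, Equiv.apply_symm_apply]; exact hbc.symm
          · exact absurd rfl huv
    have h3 := h2 _ h1
    rwa [Equiv.symm_apply_apply] at h3
  · intro R _
    have h1 := (MG_mfd (m := m) (N := N) (by omega) hmN).comap e
    have h2 : m + 1 = 2 * r := by omega
    rw [h2] at h1
    exact h1.mfd R
  · have hgen : gen (cliqueCx ((MG m N).comap e)).faces =
        1 + 2 * (N : ℤ[X]) * (X * (1 + X) * (1 + 2 * X) ^ (m - 1)) := by
      rw [gen_comap, ring_gen (by omega) hmN]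
    have hF : ∀ i, (1 + 2 * (N : ℤ[X]) * (X * (1 + X) * (1 + 2 * X) ^ (m - 1)) : ℤ[X]).coeff i =
        fNum (cliqueCx ((MG m N).comap e)) i := by
      intro i
      rw [← hgen, gen_coeff]
    apply gamma_of_F r _ _ _ hF
    · have h1 : (X * (1 + X) : ℤ[X]).natDegree ≤ 2 := by compute_degree
      have h2 : (1 + 2 * X : ℤ[X]).natDegree ≤ 1 := by compute_degree
      have h3 : ((1 + 2 * X : ℤ[X]) ^ (m - 1)).natDegree ≤ m - 1 := by
        refine (Polynomial.natDegree_pow_le).trans ?_
        calc (m - 1) * (1 + 2 * X : ℤ[X]).natDegree ≤ (m - 1) * 1 := Nat.mul_le_mul_left _ h2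
          _ = m - 1 := by ring
      have h4 : (X * (1 + X) * (1 + 2 * X) ^ (m - 1) : ℤ[X]).natDegree ≤ 2 + (m - 1) :=
        (Polynomial.natDegree_mul_le).trans (Nat.add_le_add h1 h3)
      have h5 : (2 * (N : ℤ[X])).natDegree ≤ 0 := by
        refine (Polynomial.natDegree_mul_le).trans ?_
        rw [Polynomial.natDegree_natCast]
        simp
      have h6 : (2 * (N : ℤ[X]) * (X * (1 + X) * (1 + 2 * X) ^ (m - 1))).natDegree ≤
          0 + (2 + (m - 1)) := (Polynomial.natDegree_mul_le).trans (Nat.add_le_add h5 h4)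
      refine (Polynomial.natDegree_add_le _ _).trans ?_
      rw [Polynomial.natDegree_one]
      omega
    · have hsum : ∑ i ∈ range (r + 1), C ((-4) ^ i * (r.choose i : ℤ) +
          if i = 1 then 2 * (N : ℤ) else 0) * (X * (1 + X)) ^ i * (1 + 2 * X) ^ (2 * r - 2 * i) =
          ∑ i ∈ range (r + 1), ((-4 * (X * (1 + X))) ^ i * ((1 + 2 * X) ^ 2) ^ (r - i) *
            (r.choose i : ℤ[X])) +
          ∑ i ∈ range (r + 1), (if i = 1 then
            2 * (N : ℤ[X]) * (X * (1 + X) * (1 + 2 * X) ^ (2 * r - 2)) else 0) := by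
        rw [← Finset.sum_add_distrib]
        apply Finset.sum_congr rfl
        intro i hi
        rw [mem_range] at hi
        have e1 : (-4 * (X * (1 + X)) : ℤ[X]) ^ i = (-4) ^ i * (X * (1 + X)) ^ i := mul_pow _ _ _
        rw [e1, ← pow_mul, Nat.mul_sub]
        by_cases h : i = 1
        · subst h
          simp only [if_true, map_add, map_mul, map_pow, map_neg, map_natCast, map_ofNat]
          ring
        · simp only [h, if_false, map_add, map_mul, map_pow, map_neg, map_natCast, map_ofNat,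
            map_zero]
          ring
      rw [hsum, ← add_pow, one_two_sq, Finset.sum_ite_eq', if_pos (mem_range.mpr (by omega))]
      have h1 : (-4 * (X * (1 + X)) + (1 + 4 * (X * (1 + X))) : ℤ[X]) = 1 := by ring
      have h2 : m - 1 = 2 * r - 2 := by omega
      rw [h1, one_pow, h2]

/-- For every `r ≥ 4` there are arbitrarily large `n` for which some connected flag homology
`(2r-1)`-manifold `M` on `n` vertices satisfies `ρ_i(M) < 0 < ρ_{i+1}(M)` for all odd `i` with
`3 ≤ i < r`, where `ρ_i(M) = γ_i(M) / γ_i(J_r(n))`. -/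
theorem result (r : ℕ) (hr : 4 ≤ r) (n₀ : ℕ) :
    ∃ n : ℕ, n₀ ≤ n ∧ 4 * r ≤ n ∧ ∃ M : SCx (Fin n),
      (∀ v : Fin n, ({v} : Finset (Fin n)) ∈ M.faces) ∧ IsFlag M ∧ IsConn M ∧
      (∀ (R : Type) [CommRing R], IsHomologyManifold R (2 * r) M) ∧
      ∃ γM γJ : ℕ → ℤ, IsGammaVector r M γM ∧ IsGammaVector r (J r n) γJ ∧
        ∀ i : ℕ, Odd i → 3 ≤ i → i < r →
          0 < γJ i ∧ 0 < γJ (i + 1) ∧
          (γM i : ℚ) / (γJ i : ℚ) < 0 ∧ 0 < (γM (i + 1) : ℚ) / (γJ (i + 1) : ℚ) := by
  set t := n₀ + 8 with ht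
  obtain ⟨M, h1, h2, h3, h4, h5⟩ := main r hr t (by omega)
  refine ⟨r * (2 * t), ?_, ?_, M, h1, h2, h3, h4, _, _, h5,
    gamma_J r (2 * t) (by omega) (by omega), ?_⟩
  · calc n₀ ≤ 1 * (2 * t) := by omega
      _ ≤ r * (2 * t) := Nat.mul_le_mul_right _ (by omega)
  · calc 4 * r = r * 4 := by ring
      _ ≤ r * (2 * t) := Nat.mul_le_mul_left _ (by omega)
  · intro i hodd hi3 hir
    have ha : (0 : ℤ) < ((2 * t : ℕ) : ℤ) - 4 := by push_cast; omega
    have hc1 : (0 : ℤ) < (r.choose i : ℤ) := by exact_mod_cast Nat.choose_pos hir.le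
    have hc2 : (0 : ℤ) < (r.choose (i + 1) : ℤ) := by exact_mod_cast Nat.choose_pos hir
    have hJ1 : (0 : ℤ) < (r.choose i : ℤ) * (((2 * t : ℕ) : ℤ) - 4) ^ i := by positivity
    have hJ2 : (0 : ℤ) < (r.choose (i + 1) : ℤ) * (((2 * t : ℕ) : ℤ) - 4) ^ (i + 1) := by
      positivity
    have hM1 : (-4 : ℤ) ^ i * (r.choose i : ℤ) + (if i = 1 then 2 * ((r * t : ℕ) : ℤ) else 0) < 0 := by
      rw [if_neg (by omega), add_zero, hodd.neg_pow]
      have : (0 : ℤ) < 4 ^ i * (r.choose i : ℤ) := by positivity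
      linarith
    have hM2 : 0 < (-4 : ℤ) ^ (i + 1) * (r.choose (i + 1) : ℤ) +
        (if i + 1 = 1 then 2 * ((r * t : ℕ) : ℤ) else 0) := by
      rw [if_neg (by omega), add_zero, hodd.add_one.neg_pow]
      positivity
    refine ⟨hJ1, hJ2, ?_, ?_⟩
    · exact div_neg_of_neg_of_pos (by exact_mod_cast hM1) (by exact_mod_cast hJ1)
    · exact div_pos (by exact_mod_cast hM2) (by exact_mod_cast hJ2)

end Pool.Agent.Results.MP_fc91b2_co.ConnectedGamma
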