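import Pool.Agent.H66.FlagCount
import Pool.Agent.H66.FlagJoin
import Pool.Agent.H66.FlagPow

set_option autoImplicit false

namespace Pool.Agent.Results.MP_fc91b2_co.DisjointUnion

open Pool.Agent.H66.Flag Finset Polynomial

theorem one_two_sq : (1 + 2 * X : ℤ[X]) ^ 2 = 1 + 4 * (X * (1 + X)) := by ring

theorem degJ (r a : ℕ) : ((1 + (a : ℤ[X]) * (X * (1 + X))) ^ r : ℤ[X]).natDegree ≤ 2 * r := by
  have h1 : (X * (1 + X) : ℤ[X]).natDegree ≤ 2 := by compute_degree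
  have h2 : ((a : ℤ[X]) * (X * (1 + X))).natDegree ≤ 2 := by
    refine (Polynomial.natDegree_mul_le).trans ?_
    rw [Polynomial.natDegree_natCast]; omega
  have h3 : (1 + (a : ℤ[X]) * (X * (1 + X))).natDegree ≤ 2 := by
    refine (Polynomial.natDegree_add_le _ _).trans ?_
    rw [Polynomial.natDegree_one]; omega
  calc _ ≤ r * (1 + (a : ℤ[X]) * (X * (1 + X))).natDegree := Polynomial.natDegree_pow_le
    _ ≤ r * 2 := Nat.mul_le_mul_left _ h3
    _ = 2 * r := by ring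

/-- the `γ`-vector of `J_r(r a)`. -/
theorem gamma_J (r a : ℕ) (hr : 1 ≤ r) (ha : 3 ≤ a) :
    IsGammaVector r (J r (r * a)) (fun i => (r.choose i : ℤ) * ((a : ℤ) - 4) ^ i) := by
  apply gamma_of_F r _ _ _ (J_coeff r a hr ha) (degJ r a)
  have h1 : (1 + (a : ℤ[X]) * (X * (1 + X))) =
      (((a : ℤ[X]) - 4) * (X * (1 + X))) + (1 + 2 * X) ^ 2 := by rw [one_two_sq]; ring
  rw [h1, add_pow]
  apply Finset.sum_congr rfl
  intro i hi
  rw [mem_range] at hi
  rw [mul_pow, ← pow_mul, Nat.mul_sub]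
  simp only [map_mul, map_pow, map_sub, map_natCast, map_ofNat]
  ring

/-- the `h`-numbers of `J_r(r a)`. -/
theorem h_J (r a : ℕ) (hr : 1 ≤ r) (ha : 3 ≤ a) (i : ℕ) (hi : i ≤ 2 * r) :
    hNum (2 * r) (J r (r * a)) i = ((1 + C ((a : ℤ) - 2) * X + X ^ 2 : ℤ[X]) ^ r).coeff i := by
  refine hNum_eq (hrev_eq (2 * r) _ _ _ (J_coeff r a hr ha) (degJ r a) ?_) hi
  intro x hx0 hx1
  have h1x : 1 - x ≠ 0 := sub_ne_zero.mpr (Ne.symm hx1)
  simp only [map_mul, map_pow, map_add, map_one, aeval_X, map_natCast, map_sub, map_ofNat]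
  rw [pow_mul, ← mul_pow]
  congr 1
  field_simp
  ring

/-- the disjoint union of `k` cross-polytope boundaries -/
theorem main (r : ℕ) (hr : 3 ≤ r) (k : ℕ) :
    ∃ M : SCx (Fin (r * (4 * k))),
      (∀ v, ({v} : Finset (Fin (r * (4 * k)))) ∈ M.faces) ∧ IsFlag M ∧
      (∀ (R : Type) [CommRing R], IsHomologyManifold R (2 * r) M) ∧
      hNum (2 * r) M 1 = 2 * r * (2 * k - 1) ∧
      hNum (2 * r) M 2 = ((2 * r).choose 2 : ℤ) ∧
      hNum (2 * r) M 3 = (2 * k - 1) * ((2 * r).choose 3 : ℤ) ∧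
      IsGammaVector r M (fun i => (1 - k) * (-4) ^ i * (r.choose i : ℤ) +
        if i = 0 then (k : ℤ) else 0) := by
  classical
  have hcard : Fintype.card (Fin k × (Fin (2 * r) × Bool)) = r * (4 * k) := by
    rw [Fintype.card_prod, Fintype.card_prod, Fintype.card_fin, Fintype.card_fin,
      Fintype.card_bool]; ring
  let e : Fin (r * (4 * k)) ≃ Fin k × (Fin (2 * r) × Bool) := (Fintype.equivFinOfCardEq hcard).symm
  have hgen : gen (cliqueCx ((DG k (2 * r)).comap e)).faces =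
      1 + (k : ℤ[X]) * ((1 + 2 * X) ^ (2 * r) - 1) := by
    rw [gen_comap, DG_gen]
  have hF : ∀ i, (1 + (k : ℤ[X]) * ((1 + 2 * X) ^ (2 * r) - 1) : ℤ[X]).coeff i =
      fNum (cliqueCx ((DG k (2 * r)).comap e)) i := by
    intro i
    rw [← hgen, gen_coeff]
  have hdeg : (1 + (k : ℤ[X]) * ((1 + 2 * X) ^ (2 * r) - 1) : ℤ[X]).natDegree ≤ 2 * r := by
    have h2 : (1 + 2 * X : ℤ[X]).natDegree ≤ 1 := by compute_degree
    have h3 : ((1 + 2 * X : ℤ[X]) ^ (2 * r)).natDegree ≤ 2 * r := by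
      refine (Polynomial.natDegree_pow_le).trans ?_
      calc (2 * r) * (1 + 2 * X : ℤ[X]).natDegree ≤ (2 * r) * 1 := Nat.mul_le_mul_left _ h2
        _ = 2 * r := by ring
    have h4 : ((1 + 2 * X : ℤ[X]) ^ (2 * r) - 1).natDegree ≤ 2 * r := by
      refine (Polynomial.natDegree_sub_le _ _).trans ?_
      rw [Polynomial.natDegree_one]; omega
    have h5 : ((k : ℤ[X]) * ((1 + 2 * X) ^ (2 * r) - 1)).natDegree ≤ 2 * r := by
      refine (Polynomial.natDegree_mul_le).trans ?_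
      rw [Polynomial.natDegree_natCast]; omega
    refine (Polynomial.natDegree_add_le _ _).trans ?_
    rw [Polynomial.natDegree_one]; omega
  have hh := hrev_eq (2 * r) (cliqueCx ((DG k (2 * r)).comap e))
    (1 + (k : ℤ[X]) * ((1 + 2 * X) ^ (2 * r) - 1))
    ((1 - (k : ℤ[X])) * (X + C (-1)) ^ (2 * r) + (k : ℤ[X]) * (1 + X) ^ (2 * r)) hF hdeg (by
      intro x hx0 hx1
      have h1x : 1 - x ≠ 0 := sub_ne_zero.mpr (Ne.symm hx1)
      simp only [map_mul, map_pow, map_add, map_sub, map_one, aeval_X, map_natCast, map_neg,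
        map_ofNat]
      have e1 : (x + -1) ^ (2 * r) = (1 - x) ^ (2 * r) := by
        rw [pow_mul, pow_mul]; congr 1; ring
      have e2 : 1 + 2 * (x / (1 - x)) = (1 + x) / (1 - x) := by field_simp; ring
      rw [e1, e2, div_pow]
      have h2 : (1 - x) ^ (2 * r) ≠ 0 := pow_ne_zero _ h1x
      field_simp
      ring)
  have hcoef : ∀ i, ((1 - (k : ℤ[X])) * (X + C (-1)) ^ (2 * r) +
      (k : ℤ[X]) * (1 + X) ^ (2 * r)).coeff i =
      (1 - (k : ℤ)) * ((-1) ^ (2 * r - i) * ((2 * r).choose i : ℤ)) +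
        (k : ℤ) * ((2 * r).choose i : ℤ) := by
    intro i
    have e1 : (1 - (k : ℤ[X])) = C (1 - (k : ℤ)) := by simp
    have e2 : (k : ℤ[X]) = C (k : ℤ) := by simp
    rw [e1, e2, coeff_add, coeff_C_mul, coeff_C_mul, coeff_X_add_C_pow, coeff_one_add_X_pow]
  have hodd1 : (-1 : ℤ) ^ (2 * r - 1) = -1 := Odd.neg_one_pow ⟨r - 1, by omega⟩
  have heven : (-1 : ℤ) ^ (2 * r - 2) = 1 := Even.neg_one_pow ⟨r - 1, by omega⟩
  have hodd3 : (-1 : ℤ) ^ (2 * r - 3) = -1 := Odd.neg_one_pow ⟨r - 2, by omega⟩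
  refine ⟨cliqueCx ((DG k (2 * r)).comap e), ?_, cliqueCx_flag, ?_, ?_, ?_, ?_, ?_⟩
  · intro v x hx y hy hxy
    rw [mem_singleton] at hx hy
    exact absurd (hx.trans hy.symm) hxy
  · intro R _
    exact ((DG_mfd k (2 * r)).comap e).mfd R
  · rw [hNum_eq hh (by omega), hcoef, hodd1, Nat.choose_one_right]
    push_cast
    ring
  · rw [hNum_eq hh (by omega), hcoef, heven]
    ring
  · rw [hNum_eq hh (by omega), hcoef, hodd3]
    ring
  · apply gamma_of_F r _ _ _ hF hdeg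
    have hsum : ∑ i ∈ range (r + 1), C ((1 - k) * (-4) ^ i * (r.choose i : ℤ) +
        if i = 0 then (k : ℤ) else 0) * (X * (1 + X)) ^ i * (1 + 2 * X) ^ (2 * r - 2 * i) =
        (1 - (k : ℤ[X])) * ∑ i ∈ range (r + 1), ((-4 * (X * (1 + X))) ^ i *
          ((1 + 2 * X) ^ 2) ^ (r - i) * (r.choose i : ℤ[X])) +
        ∑ i ∈ range (r + 1), (if i = 0 then (k : ℤ[X]) * (1 + 2 * X) ^ (2 * r) else 0) := by
      rw [Finset.mul_sum, ← Finset.sum_add_distrib]
      apply Finset.sum_congr rfl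
      intro i hi
      rw [mem_range] at hi
      have e1 : (-4 * (X * (1 + X)) : ℤ[X]) ^ i = (-4) ^ i * (X * (1 + X)) ^ i := mul_pow _ _ _
      rw [e1, ← pow_mul, Nat.mul_sub]
      by_cases h : i = 0
      · subst h
        simp only [if_true, map_add, map_mul, map_natCast, map_sub, map_one, pow_zero, mul_zero,
          Nat.sub_zero]
        ring
      · simp only [h, if_false, map_add, map_mul, map_pow, map_neg, map_natCast, map_ofNat,
          map_zero, map_sub, map_one]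
        ring
    rw [hsum, ← add_pow, one_two_sq, Finset.sum_ite_eq', if_pos (mem_range.mpr (by omega))]
    have h1 : (-4 * (X * (1 + X)) + (1 + 4 * (X * (1 + X))) : ℤ[X]) = 1 := by ring
    rw [h1, one_pow]
    ring

/-- For every `r ≥ 3` there are arbitrarily large `n` for which some flag homology
`(2r-1)`-manifold `M` on `n` vertices satisfies `ρ_2(M) < ρ_3(M)` simultaneously for the
`h`-numbers, the `g`-numbers and the `γ`-numbers. -/
theorem result (r : ℕ) (hr : 3 ≤ r) (n₀ : ℕ) :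
    ∃ n : ℕ, n₀ ≤ n ∧ 4 * r ≤ n ∧ ∃ M : SCx (Fin n),
      (∀ v : Fin n, ({v} : Finset (Fin n)) ∈ M.faces) ∧ IsFlag M ∧
      (∀ (R : Type) [CommRing R], IsHomologyManifold R (2 * r) M) ∧
      (0 < hNum (2 * r) (J r n) 2 ∧ 0 < hNum (2 * r) (J r n) 3 ∧
        (hNum (2 * r) M 2 : ℚ) / (hNum (2 * r) (J r n) 2 : ℚ) <
          (hNum (2 * r) M 3 : ℚ) / (hNum (2 * r) (J r n) 3 : ℚ)) ∧
      (0 < gNum (2 * r) (J r n) 2 ∧ 0 < gNum (2 * r) (J r n) 3 ∧
        (gNum (2 * r) M 2 : ℚ) / (gNum (2 * r) (J r n) 2 : ℚ) <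
          (gNum (2 * r) M 3 : ℚ) / (gNum (2 * r) (J r n) 3 : ℚ)) ∧
      ∃ γM γJ : ℕ → ℤ, IsGammaVector r M γM ∧ IsGammaVector r (J r n) γJ ∧
        0 < γJ 2 ∧ 0 < γJ 3 ∧
        (γM 2 : ℚ) / (γJ 2 : ℚ) < (γM 3 : ℚ) / (γJ 3 : ℚ) := by
  set k := n₀ + r + 2 with hk
  obtain ⟨M, hv, hflag, hmfd, h1, h2, h3, hγ⟩ := main r hr k
  have hq := quad_coeff (((4 * k : ℕ) : ℤ) - 2) r
  obtain ⟨-, q1, q2, q3⟩ := hq
  rw [← h_J r (4 * k) (by omega) (by omega) 1 (by omega)] at q1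
  rw [← h_J r (4 * k) (by omega) (by omega) 2 (by omega)] at q2
  rw [← h_J r (4 * k) (by omega) (by omega) 3 (by omega)] at q3
  have c2 := choose2 r
  have c3 := choose3 r (by omega)
  set A1 := hNum (2 * r) (J r (r * (4 * k))) 1 with hA1
  set A2 := hNum (2 * r) (J r (r * (4 * k))) 2 with hA2
  set A3 := hNum (2 * r) (J r (r * (4 * k))) 3 with hA3
  have hs : ((4 * k : ℕ) : ℤ) - 2 = 2 * (2 * (k : ℤ) - 1) := by push_cast; ring
  rw [hs] at q1 q2 q3
  set s : ℤ := 2 * (k : ℤ) - 1 with hsdef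
  have hr3 : (3 : ℤ) ≤ r := by exact_mod_cast hr
  have hsr : 2 * (r : ℤ) + 3 ≤ s := by rw [hsdef, hk]; push_cast; linarith
  have hs3 : (9 : ℤ) ≤ s := by linarith
  obtain ⟨hA2pos, hA3pos, hG2pos, hG3pos, key, hneg, hpos⟩ :=
    arith (r : ℤ) s A1 A2 A3 ((2 * r).choose 2 : ℤ) ((2 * r).choose 3 : ℤ) hr3 hsr q1 q2 q3 c2 c3
  refine ⟨r * (4 * k), ?_, ?_, M, hv, hflag, hmfd, ⟨hA2pos, hA3pos, ?_⟩,
    ⟨hG2pos, hG3pos, ?_⟩, _, _, hγ, gamma_J r (4 * k) (by omega) (by omega), ?_, ?_, ?_⟩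
  · calc n₀ ≤ 1 * (4 * k) := by omega
      _ ≤ r * (4 * k) := Nat.mul_le_mul_right _ (by omega)
  · calc 4 * r = r * 4 := by ring
      _ ≤ r * (4 * k) := Nat.mul_le_mul_left _ (by omega)
  · rw [← hA2, ← hA3, h2, h3, div_lt_div_iff₀ (by exact_mod_cast hA2pos) (by exact_mod_cast hA3pos)]
    exact_mod_cast key
  · have g2 : gNum (2 * r) M 2 = ((2 * r).choose 2 : ℤ) - 2 * r * s := by
      unfold gNum; rw [h2, h1]
    have g3 : gNum (2 * r) M 3 = s * ((2 * r).choose 3 : ℤ) - ((2 * r).choose 2 : ℤ) := by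
      unfold gNum; rw [h3, h2]
    have g2' : gNum (2 * r) (J r (r * (4 * k))) 2 = A2 - A1 := rfl
    have g3' : gNum (2 * r) (J r (r * (4 * k))) 3 = A3 - A2 := rfl
    rw [g2, g3, g2', g3']
    calc ((((2 * r).choose 2 : ℤ) - 2 * r * s : ℤ) : ℚ) / ((A2 - A1 : ℤ) : ℚ) < 0 :=
          div_neg_of_neg_of_pos (by exact_mod_cast hneg) (by exact_mod_cast hG2pos)
      _ < ((s * ((2 * r).choose 3 : ℤ) - ((2 * r).choose 2 : ℤ) : ℤ) : ℚ) /
          ((A3 - A2 : ℤ) : ℚ) :=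
          div_pos (by exact_mod_cast hpos) (by exact_mod_cast hG3pos)
  · have ha : (0 : ℤ) < ((4 * k : ℕ) : ℤ) - 4 := by push_cast; omega
    have hc : (0 : ℤ) < (r.choose 2 : ℤ) := by exact_mod_cast Nat.choose_pos (by omega)
    positivity
  · have ha : (0 : ℤ) < ((4 * k : ℕ) : ℤ) - 4 := by push_cast; omega
    have hc : (0 : ℤ) < (r.choose 3 : ℤ) := by exact_mod_cast Nat.choose_pos (by omega)
    positivity
  · have ha : (0 : ℤ) < ((4 * k : ℕ) : ℤ) - 4 := by push_cast; omega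
    have hc2 : (0 : ℤ) < (r.choose 2 : ℤ) := by exact_mod_cast Nat.choose_pos (by omega)
    have hc3 : (0 : ℤ) < (r.choose 3 : ℤ) := by exact_mod_cast Nat.choose_pos (by omega)
    have hk1 : (0 : ℤ) < (k : ℤ) - 1 := by rw [hk]; push_cast; linarith
    have p2 : (0 : ℤ) < (r.choose 2 : ℤ) * (((4 * k : ℕ) : ℤ) - 4) ^ 2 := by positivity
    have p3 : (0 : ℤ) < (r.choose 3 : ℤ) * (((4 * k : ℕ) : ℤ) - 4) ^ 3 := by positivity
    have m2 : (1 - (k : ℤ)) * (-4) ^ 2 * (r.choose 2 : ℤ) + (if (2 : ℕ) = 0 then (k : ℤ) else 0) < 0 := by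
      rw [if_neg (by norm_num)]
      have : 0 < ((k : ℤ) - 1) * (r.choose 2 : ℤ) := mul_pos hk1 hc2
      linarith
    have m3 : 0 < (1 - (k : ℤ)) * (-4) ^ 3 * (r.choose 3 : ℤ) + (if (3 : ℕ) = 0 then (k : ℤ) else 0) := by
      rw [if_neg (by norm_num)]
      have : 0 < ((k : ℤ) - 1) * (r.choose 3 : ℤ) := mul_pos hk1 hc3
      linarith
    refine lt_trans (b := (0 : ℚ)) ?_ ?_
    · exact div_neg_of_neg_of_pos (by exact_mod_cast m2) (by exact_mod_cast p2)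
    · exact div_pos (by exact_mod_cast m3) (by exact_mod_cast p3)

end Pool.Agent.Results.MP_fc91b2_co.DisjointUnion
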